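import Pool.Agent.Q20.GD.Dat
import Pool.Agent.Q20.RS.Stk

/-!
# Numbers of characters of absolute Galois groups at the levels of a class
-/

set_option autoImplicit false
set_option linter.unusedSectionVars false

namespace Pool.Agent.Q20.GD

open NumberField IsDedekindDomain Pool.Agent.Q92.AR Pool.Agent.Q20.RS
open Pool.Agent.Q246.BI (Smooth IsCharacter induced)
open Pool.Agent.Q20.TR (bt)
open Representation (IntertwiningMap)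

section defs
variable {K : Type} [Field K] [NumberField K]

/-- **Levels** -/
structure GLv (K : Type) [Field K] [NumberField K] : Type 1 where
  /-- the field -/
  N : IntermediateField K (AlgebraicClosure K)
  [fin : FiniteDimensional K N]
  [nor : Normal K N]
  D : Dtm K N

attribute [instance] GLv.fin GLv.nor

/-- `z` is the number of the function `χ` on `Gal(K̄/F₀)`, which is the inflation of the
character of a representation `ρ` of `Gal(N/F₀)` -/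
def GLv.IsA (ℓ : GLv K) {F₀ : IntermediateField K (AlgebraicClosure K)}
    (χ : F₀.fixingSubgroup → ℂ) (z : ℂ) : Prop :=
  ∃ (n : ℕ) (ρ : Representation ℂ (ℓ.N ≃ₐ[sb ℓ.N F₀] ℓ.N) (Fin n → ℂ)), HasChar ρ χ ∧
    z = ℓ.D.A (sb ℓ.N F₀) ρ

open scoped Classical in
/-- the number of a character `χ` of `Gal(K̄/F₀)` at the level `ℓ` -/
noncomputable def GLv.A (ℓ : GLv K) {F₀ : IntermediateField K (AlgebraicClosure K)}
    (χ : F₀.fixingSubgroup → ℂ) : ℂ :=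
  if h : ∃ z, ℓ.IsA χ z then h.choose else 0

open scoped Classical in
/-- the function on `Gal(N/F₀)` with inflation `χ` -/
noncomputable def GLv.fn (ℓ : GLv K) {F₀ : IntermediateField K (AlgebraicClosure K)}
    (χ : F₀.fixingSubgroup → ℂ) (y : ℓ.N ≃ₐ[sb ℓ.N F₀] ℓ.N) : ℂ :=
  if h : ∃ g : F₀.fixingSubgroup, ∀ x : ℓ.N,
    ((y x : ℓ.N) : AlgebraicClosure K) = (g : Gal(AlgebraicClosure K/K)) x then χ h.choose else 0

/-- **The Artin L-function** `L_S(s, χ)` of a character `χ` of `Gal(K̄/F₀)` at the level `ℓ`, `Re s > 1` -/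
noncomputable def GLv.L (ℓ : GLv K) {F₀ : IntermediateField K (AlgebraicClosure K)}
    (χ : F₀.fixingSubgroup → ℂ) (s : ℂ) : ℂ := artinLS ℓ.D.T (ℓ.fn χ) s

end defs

section
variable {K : Type} [Field K] [NumberField K]

variable (ℓ : GLv K) {F₀ : IntermediateField K (AlgebraicClosure K)}

/-- **The numbers at a level.** -/
theorem GLv.A_eq (hle : F₀ ≤ ℓ.N) {U : Type} [AddCommGroup U] [Module ℂ U]
    [FiniteDimensional ℂ U] {ρ : Representation ℂ (ℓ.N ≃ₐ[sb ℓ.N F₀] ℓ.N) U}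
    {χ : F₀.fixingSubgroup → ℂ} (h : HasChar ρ χ) :
    ∃ h : indj (rsc K (sb ℓ.N F₀) ℓ.N) ρ.character ∈ PP ℓ.D,
      ℓ.A χ = ℓ.D.A (sb ℓ.N F₀) ρ ∧ ℓ.A χ = val ℓ.D ⟨_, h⟩ := by
  obtain ⟨h1, e1⟩ := A_val ℓ.D (F := sb ℓ.N F₀) ρ
  have key : ℓ.A χ = ℓ.D.A (sb ℓ.N F₀) ρ := by
    have hex : ∃ z, ℓ.IsA χ z := by
      obtain ⟨ρ', hρ'⟩ := RS.exists_conj ρ (RingEquiv.refl ℂ)
      exact ⟨_, _, ρ', fun y g hy => (hρ' y).trans (h y g hy), rfl⟩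
    unfold GLv.A
    rw [dif_pos hex]
    obtain ⟨n, ρ', hρ', e⟩ := hex.choose_spec
    rw [e]
    obtain ⟨h2, e2⟩ := A_val ℓ.D (F := sb ℓ.N F₀) ρ'
    rw [e1, e2]
    congr 1
    exact Subtype.ext (congrArg (indj (rsc K (sb ℓ.N F₀) ℓ.N)) (hρ'.unique hle h))
  exact ⟨h1, key, key.trans e1⟩

theorem GLv.fn_eq (hle : F₀ ≤ ℓ.N) {U : Type} [AddCommGroup U] [Module ℂ U]
    {ρ : Representation ℂ (ℓ.N ≃ₐ[sb ℓ.N F₀] ℓ.N) U}
    {χ : F₀.fixingSubgroup → ℂ} (h : HasChar ρ χ) : ℓ.fn χ = ρ.character := by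
  funext y
  have hex : ∃ g : F₀.fixingSubgroup, ∀ x : ℓ.N,
      ((y x : ℓ.N) : AlgebraicClosure K) = (g : Gal(AlgebraicClosure K/K)) x := by
    obtain ⟨g, rfl⟩ := rF_surjective (mt_sb hle) y
    exact ⟨g, rF_apply _ g⟩
  unfold GLv.fn
  rw [dif_pos hex]
  exact (h y _ hex.choose_spec).symm

/-- the characters in terms of the virtual characters at level `N` -/
theorem GLv.exists_fn (hle : F₀ ≤ ℓ.N) {U : Type} [AddCommGroup U] [Module ℂ U]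
    [FiniteDimensional ℂ U] {ρ : Representation ℂ (ℓ.N ≃ₐ[sb ℓ.N F₀] ℓ.N) U}
    {χ : F₀.fixingSubgroup → ℂ} (h : HasChar ρ χ) :
    ∃ (f : (ℓ.N ≃ₐ[K] ℓ.N) → ℂ) (hf : f ∈ PP ℓ.D), (∀ g, induced (bt K) F₀ χ g = f (rN ℓ.N g)) ∧
      ℓ.A χ = val ℓ.D ⟨f, hf⟩ ∧ ∀ s : ℂ, 1 < s.re → ℓ.L χ s = artinLS ℓ.D.T f s := by
  obtain ⟨h1, -, e1⟩ := ℓ.A_eq hle h
  refine ⟨_, h1, fun g => congrFun (ind_char hle h) g, e1, fun s hs => ?_⟩
  unfold GLv.L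
  rw [ℓ.fn_eq hle h, artinLS_ind ℓ.D.stable ℓ.D.ram _ (char_conj' ρ) hs]

/-- **Product formulas at a level.** -/
theorem GLv.prod (l : List (Term K)) (hl : ∀ t ∈ l, t.At ℓ.N) (f : (ℓ.N ≃ₐ[K] ℓ.N) → ℂ)
    (hf : ∀ g, (l.map fun t => t.e • induced (bt K) t.F t.fn).sum g = f (rN ℓ.N g)) :
    ∃ h : f ∈ PP ℓ.D, val ℓ.D ⟨f, h⟩ = (l.map fun t => ℓ.A t.fn ^ t.e).prod ∧
      ∀ s : ℂ, 1 < s.re → artinLS ℓ.D.T f s = (l.map fun t => ℓ.L t.fn s ^ t.e).prod := by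
  induction l generalizing f with
  | nil =>
    have h0 : f = 0 := by
      funext y
      obtain ⟨g, rfl⟩ := rN_surjective (N := ℓ.N) y
      rw [← hf g]
      rfl
    subst h0
    refine ⟨zero_mem _, ?_, fun s hs => ?_⟩
    · exact val_zero ℓ.D
    · rw [artinLS_zero ℓ.D.T hs]
      rfl
  | cons t l ih =>
    obtain ⟨ρ, hρ⟩ := (hl t List.mem_cons_self).exists_rep
    obtain ⟨f₁, hf₁, e1, e2, e3⟩ := ℓ.exists_fn (hl t List.mem_cons_self).le hρ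
    obtain ⟨h3, e4, e5⟩ := ih (fun t' ht' => hl t' (List.mem_cons_of_mem _ ht')) (f - t.e • f₁)
      (fun g => by
        have h4 := hf g
        rw [List.map_cons, List.sum_cons, Pi.add_apply] at h4
        rw [Pi.sub_apply, ← h4, Pi.smul_apply, Pi.smul_apply, ← e1, add_sub_cancel_left])
    have h5 : f = t.e • f₁ + (f - t.e • f₁) := (add_sub_cancel _ _).symm
    have h6 : t.e • f₁ ∈ PP ℓ.D := AddSubgroup.zsmul_mem _ hf₁ _
    have h7 : f ∈ PP ℓ.D := by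
      rw [h5]
      exact add_mem h6 h3
    refine ⟨h7, ?_, fun s hs => ?_⟩
    · have h8 : (⟨f, h7⟩ : PP ℓ.D) = t.e • ⟨f₁, hf₁⟩ + ⟨f - t.e • f₁, h3⟩ := Subtype.ext h5
      rw [h8, val_add, val_zsmul, e4, List.map_cons, List.prod_cons, e2]
    · conv_lhs => rw [h5]
      rw [artinLS_add _ _ _ hs, artinLS_zsmul _ _ _ hs, e5 s hs, List.map_cons, List.prod_cons,
        e3 s hs]

/-- the level functions of characters and their conjugates -/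
theorem GLv.exists_conj {F : IntermediateField K (AlgebraicClosure K)}
    (hle : F ≤ ℓ.N) {χ : F.fixingSubgroup → ℂ} {U : Type} [AddCommGroup U] [Module ℂ U]
    [FiniteDimensional ℂ U] {ρ : Representation ℂ (ℓ.N ≃ₐ[sb ℓ.N F] ℓ.N) U} (h : HasChar ρ χ)
    (σ : ℂ ≃+* ℂ) : ∃ (f : (ℓ.N ≃ₐ[K] ℓ.N) → ℂ) (h1 : f ∈ PP ℓ.D)
      (h2 : (fun g => σ (f g)) ∈ PP ℓ.D), (∀ g, induced (bt K) F χ g = f (rN ℓ.N g)) ∧
        ℓ.A χ = val ℓ.D ⟨f, h1⟩ ∧ ℓ.A (fun g => σ (χ g)) = val ℓ.D ⟨_, h2⟩ := by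
  obtain ⟨ρ', hρ'⟩ := RS.exists_conj ρ σ
  obtain ⟨h1, -, e1⟩ := ℓ.A_eq hle h
  obtain ⟨h2, -, e2⟩ := ℓ.A_eq hle (h.conj hρ')
  have h3 : (fun g => σ (indj (rsc K (sb ℓ.N F) ℓ.N) ρ.character g)) =
      indj (rsc K (sb ℓ.N F) ℓ.N) ρ'.character := by
    rw [indj_conj]
    congr 1
    exact funext fun g => (hρ' g).symm
  refine ⟨_, h1, h3 ▸ h2, fun g => congrFun (ind_char hle h) g, e1, ?_⟩
  rw [e2]
  congr 1
  exact Subtype.ext h3.symm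

end

section
variable {K : Type} [Field K] [NumberField K]

/-- the functions on the absolute Galois group which are in the given subgroup at all sufficiently
large levels of the class `Λ` -/
noncomputable def EvL {Λ : Type} (γ : Λ → GLv K)
    (Q : ∀ ℓ : Λ, AddSubgroup (((γ ℓ).N ≃ₐ[K] (γ ℓ).N) → ℂ)) :
    AddSubgroup ((bt K).fixingSubgroup → ℂ) where
  carrier := {f | ∃ N₀ : IntermediateField K (AlgebraicClosure K), FiniteDimensional K N₀ ∧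
    ∀ ℓ : Λ, N₀ ≤ (γ ℓ).N → ∃ f' ∈ Q ℓ, ∀ g, f g = f' (rN (γ ℓ).N g)}
  add_mem' := fun {a b} ha hb => by
    obtain ⟨N₁, h1, ha⟩ := ha
    obtain ⟨N₂, h2, hb⟩ := hb
    refine ⟨N₁ ⊔ N₂, IntermediateField.finiteDimensional_sup N₁ N₂, fun ℓ hN => ?_⟩
    obtain ⟨a', ha', ea⟩ := ha ℓ (le_sup_left.trans hN)
    obtain ⟨b', hb', eb⟩ := hb ℓ (le_sup_right.trans hN)
    exact ⟨a' + b', add_mem ha' hb', fun g => by rw [Pi.add_apply, Pi.add_apply, ea, eb]⟩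
  zero_mem' := ⟨⊥, inferInstance, fun ℓ _ => ⟨0, zero_mem _, fun _ => rfl⟩⟩
  neg_mem' := fun {a} ha => by
    obtain ⟨N₁, h1, ha⟩ := ha
    refine ⟨N₁, h1, fun ℓ hN => ?_⟩
    obtain ⟨a', ha', ea⟩ := ha ℓ hN
    exact ⟨-a', neg_mem ha', fun g => by rw [Pi.neg_apply, Pi.neg_apply, ea]⟩

variable {Λ : Type} (γ : Λ → GLv K)

variable {γ} in
/-- saturation -/
theorem evL_sat {P Q : ∀ ℓ : Λ, AddSubgroup (((γ ℓ).N ≃ₐ[K] (γ ℓ).N) → ℂ)}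
    (hs : ∀ (ℓ : Λ) (f : ((γ ℓ).N ≃ₐ[K] (γ ℓ).N) → ℂ) (m : ℕ), 0 < m → f ∈ P ℓ → m • f ∈ Q ℓ →
      f ∈ Q ℓ)
    {f : (bt K).fixingSubgroup → ℂ} (hf : f ∈ EvL γ P) {m : ℕ} (hm : 0 < m)
    (h : m • f ∈ EvL γ Q) : f ∈ EvL γ Q := by
  obtain ⟨N₁, h1, ha⟩ := hf
  obtain ⟨N₂, h2, hb⟩ := h
  refine ⟨N₁ ⊔ N₂, IntermediateField.finiteDimensional_sup N₁ N₂, fun ℓ hN => ?_⟩
  obtain ⟨a', ha', ea⟩ := ha ℓ (le_sup_left.trans hN)
  obtain ⟨b', hb', eb⟩ := hb ℓ (le_sup_right.trans hN)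
  refine ⟨a', hs ℓ a' m hm ha' ?_, ea⟩
  have h3 : m • a' = b' := by
    funext y
    obtain ⟨g, rfl⟩ := rN_surjective (N := (γ ℓ).N) y
    have h4 := eb g
    rw [Pi.smul_apply, ea] at h4
    exact h4
  rw [h3]
  exact hb'

/-- characters exist at all sufficiently large levels -/
theorem exists_glev {F : IntermediateField K (AlgebraicClosure K)} (hF : FiniteDimensional K F)
    {χ : F.fixingSubgroup → ℂ} (hχ : IsCharacter F χ) :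
    ∃ N₀ : IntermediateField K (AlgebraicClosure K), FiniteDimensional K N₀ ∧ F ≤ N₀ ∧
      ∀ (N : IntermediateField K (AlgebraicClosure K)) [FiniteDimensional K N] [Normal K N],
        N₀ ≤ N → ∃ (n : ℕ) (ρ : Representation ℂ (N ≃ₐ[sb N F] N) (Fin n → ℂ)), HasChar ρ χ := by
  obtain ⟨n, τ, ⟨E, hE, hs⟩, hτ⟩ := hχ
  refine ⟨F ⊔ E, IntermediateField.finiteDimensional_sup F E, le_sup_left, fun N _ _ hℓ => ?_⟩
  obtain ⟨ρ, hρ⟩ := exists_rep (le_sup_left.trans hℓ) τ fun g hg =>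
    hs g (IntermediateField.fixingSubgroup_antitone (le_sup_right.trans hℓ) hg)
  exact ⟨n, ρ, fun y g hy => (hρ y g hy).trans (hτ g).symm⟩

/-- **The equality up to roots of unity in terms of the induced characters** -/
theorem stark_ev {F : IntermediateField K (AlgebraicClosure K)} (hF : FiniteDimensional K F)
    {χ : F.fixingSubgroup → ℂ} (hχ : IsCharacter F χ) (σ : ℂ ≃+* ℂ) :
    (∃ N₀ : IntermediateField K (AlgebraicClosure K), FiniteDimensional K N₀ ∧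
      ∀ ℓ : Λ, N₀ ≤ (γ ℓ).N → ∃ m : ℕ, 0 < m ∧
        σ ((γ ℓ).A χ) ^ m = (γ ℓ).A (fun g => σ (χ g)) ^ m) ↔
      induced (bt K) F χ ∈ EvL γ fun ℓ => SR (γ ℓ).D σ := by
  obtain ⟨N₁, hN₁, hF₁, h1⟩ := exists_glev hF hχ
  constructor
  · rintro ⟨N₂, hN₂, h2⟩
    refine ⟨N₁ ⊔ N₂, IntermediateField.finiteDimensional_sup N₁ N₂, fun ℓ hℓ => ?_⟩
    obtain ⟨n, ρ, hρ⟩ := h1 (γ ℓ).N (le_sup_left.trans hℓ)
    obtain ⟨f, h3, h4, e1, e2, e3⟩ := (γ ℓ).exists_conj (hF₁.trans (le_sup_left.trans hℓ)) hρ σ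
    obtain ⟨m, hm, e4⟩ := h2 ℓ (le_sup_right.trans hℓ)
    exact ⟨f, ⟨h3, h4, m, hm, by rw [← e2, ← e3]; exact e4⟩, e1⟩
  · rintro ⟨N₂, hN₂, h2⟩
    refine ⟨N₁ ⊔ N₂, IntermediateField.finiteDimensional_sup N₁ N₂, fun ℓ hℓ => ?_⟩
    obtain ⟨n, ρ, hρ⟩ := h1 (γ ℓ).N (le_sup_left.trans hℓ)
    obtain ⟨f, h3, h4, e1, e2, e3⟩ := (γ ℓ).exists_conj (hF₁.trans (le_sup_left.trans hℓ)) hρ σ
    obtain ⟨f', ⟨h5, h6, m, hm, e4⟩, e5⟩ := h2 ℓ (le_sup_right.trans hℓ)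
    have h7 : f' = f := by
      funext y
      obtain ⟨g, rfl⟩ := rN_surjective (N := (γ ℓ).N) y
      rw [← e5, ← e1]
    subst h7
    exact ⟨m, hm, by rw [e2, e3]; exact e4⟩

/-- **Algebraicity in terms of the induced characters** -/
theorem alg_ev {F : IntermediateField K (AlgebraicClosure K)} (hF : FiniteDimensional K F)
    {χ : F.fixingSubgroup → ℂ} (hχ : IsCharacter F χ) :
    (∃ N₀ : IntermediateField K (AlgebraicClosure K), FiniteDimensional K N₀ ∧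
      ∀ ℓ : Λ, N₀ ≤ (γ ℓ).N → IsAlgebraic ℚ ((γ ℓ).A χ)) ↔
      induced (bt K) F χ ∈ EvL γ fun ℓ => AG (γ ℓ).D := by
  obtain ⟨N₁, hN₁, hF₁, h1⟩ := exists_glev hF hχ
  constructor
  · rintro ⟨N₂, hN₂, h2⟩
    refine ⟨N₁ ⊔ N₂, IntermediateField.finiteDimensional_sup N₁ N₂, fun ℓ hℓ => ?_⟩
    obtain ⟨n, ρ, hρ⟩ := h1 (γ ℓ).N (le_sup_left.trans hℓ)
    obtain ⟨f, h3, h4, e1, e2, e3⟩ :=
      (γ ℓ).exists_conj (hF₁.trans (le_sup_left.trans hℓ)) hρ (RingEquiv.refl ℂ)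
    exact ⟨f, ⟨h3, by rw [← e2]; exact h2 ℓ (le_sup_right.trans hℓ)⟩, e1⟩
  · rintro ⟨N₂, hN₂, h2⟩
    refine ⟨N₁ ⊔ N₂, IntermediateField.finiteDimensional_sup N₁ N₂, fun ℓ hℓ => ?_⟩
    obtain ⟨n, ρ, hρ⟩ := h1 (γ ℓ).N (le_sup_left.trans hℓ)
    obtain ⟨f, h3, h4, e1, e2, e3⟩ :=
      (γ ℓ).exists_conj (hF₁.trans (le_sup_left.trans hℓ)) hρ (RingEquiv.refl ℂ)
    obtain ⟨f', ⟨h5, e4⟩, e5⟩ := h2 ℓ (le_sup_right.trans hℓ)
    have h7 : f' = f := by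
      funext y
      obtain ⟨g, rfl⟩ := rN_surjective (N := (γ ℓ).N) y
      rw [← e5, ← e1]
    subst h7
    rw [e2]
    exact e4

theorem ind_pc {F : IntermediateField K (AlgebraicClosure K)} (hF : FiniteDimensional K F)
    {χ : F.fixingSubgroup → ℂ} (hχ : IsCharacter F χ) (σ : ℂ ≃+* ℂ) :
    induced (bt K) F χ ∈ EvL γ fun ℓ => PC (γ ℓ).D σ := by
  obtain ⟨N₁, hN₁, hF₁, h1⟩ := exists_glev hF hχ
  refine ⟨N₁, hN₁, fun ℓ hℓ => ?_⟩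
  obtain ⟨n, ρ, hρ⟩ := h1 (γ ℓ).N hℓ
  obtain ⟨f, h3, h4, e1, e2, e3⟩ := (γ ℓ).exists_conj (hF₁.trans hℓ) hρ σ
  exact ⟨f, ⟨h3, h4⟩, e1⟩

/-- **Reduction of the equality up to roots of unity.** -/
theorem stark_of_mem {F : IntermediateField K (AlgebraicClosure K)} (hF : FiniteDimensional K F)
    {χ : F.fixingSubgroup → ℂ} (hχ : IsCharacter F χ) (σ : ℂ ≃+* ℂ) {m : ℕ} (hm : 0 < m)
    {A : Set ((bt K).fixingSubgroup → ℂ)}
    (hA : m • induced (bt K) F χ ∈ AddSubgroup.closure A)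
    (h : ∀ f ∈ A, f ∈ EvL γ fun ℓ => SR (γ ℓ).D σ) :
    ∃ N₀ : IntermediateField K (AlgebraicClosure K), FiniteDimensional K N₀ ∧
      ∀ ℓ : Λ, N₀ ≤ (γ ℓ).N → ∃ m : ℕ, 0 < m ∧
        σ ((γ ℓ).A χ) ^ m = (γ ℓ).A (fun g => σ (χ g)) ^ m := by
  rw [stark_ev γ hF hχ σ]
  exact evL_sat (P := fun ℓ => PC (γ ℓ).D σ) (fun ℓ f m hm hf h => SR_sat hf.1 hf.2 hm h)
    (ind_pc γ hF hχ σ) hm ((AddSubgroup.closure_le _).2 h hA)

/-- **Reduction of algebraicity.** -/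
theorem alg_of_mem {F : IntermediateField K (AlgebraicClosure K)} (hF : FiniteDimensional K F)
    {χ : F.fixingSubgroup → ℂ} (hχ : IsCharacter F χ) {m : ℕ} (hm : 0 < m)
    {A : Set ((bt K).fixingSubgroup → ℂ)}
    (hA : m • induced (bt K) F χ ∈ AddSubgroup.closure A)
    (h : ∀ f ∈ A, f ∈ EvL γ fun ℓ => AG (γ ℓ).D) :
    ∃ N₀ : IntermediateField K (AlgebraicClosure K), FiniteDimensional K N₀ ∧
      ∀ ℓ : Λ, N₀ ≤ (γ ℓ).N → IsAlgebraic ℚ ((γ ℓ).A χ) := by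
  rw [alg_ev γ hF hχ]
  exact evL_sat (P := fun ℓ => PC (γ ℓ).D (RingEquiv.refl ℂ))
    (fun ℓ f m hm hf h => AG_sat hf.1 hm h)
    (ind_pc γ hF hχ (RingEquiv.refl ℂ)) hm ((AddSubgroup.closure_le _).2 h hA)

/-- **Product formulas.** -/
theorem prod_of_mem {F : IntermediateField K (AlgebraicClosure K)} (hF : FiniteDimensional K F)
    {χ : F.fixingSubgroup → ℂ} (hχ : IsCharacter F χ) (m : ℕ) {l : List (Term K)}
    (hl : ∀ t ∈ l, FiniteDimensional K t.F ∧ Smooth t.F t.ψ)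
    (hA : (l.map fun t => t.e • induced (bt K) t.F t.fn).sum = m • induced (bt K) F χ) :
    ∃ N₀ : IntermediateField K (AlgebraicClosure K), FiniteDimensional K N₀ ∧
      ∀ ℓ : GLv K, N₀ ≤ ℓ.N →
        (∀ s : ℂ, 1 < s.re → ℓ.L χ s ^ m = (l.map fun t => ℓ.L t.fn s ^ t.e).prod) ∧
        ℓ.A χ ^ m = (l.map fun t => ℓ.A t.fn ^ t.e).prod := by
  obtain ⟨N₁, hN₁, hF₁, h1⟩ := exists_glev hF hχ
  obtain ⟨N₂, hN₂, h2⟩ := exists_level l hl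
  refine ⟨N₁ ⊔ N₂, IntermediateField.finiteDimensional_sup N₁ N₂, fun ℓ hℓ => ?_⟩
  obtain ⟨n, ρ, hρ⟩ := h1 ℓ.N (le_sup_left.trans hℓ)
  obtain ⟨f, hf, e1, e2, e3⟩ := ℓ.exists_fn (hF₁.trans (le_sup_left.trans hℓ)) hρ
  obtain ⟨h3, e4, e5⟩ := ℓ.prod l (h2 ℓ.N (le_sup_right.trans hℓ)) (m • f) fun g => by
    rw [hA, Pi.smul_apply, Pi.smul_apply, e1]
  refine ⟨fun s hs => ?_, ?_⟩
  · rw [e3 s hs, ← artinLS_nsmul _ _ _ hs, e5 s hs]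
  · rw [e2, ← e4, ← val_nsmul]
    rfl

end

end Pool.Agent.Q20.GD
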