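import Pool.Agent.Q20.GD.Lev

/-!
# Equality of the powers for all automorphisms
-/

set_option autoImplicit false
set_option linter.unusedSectionVars false

namespace Pool.Agent.Q20.GD

open NumberField IsDedekindDomain Pool.Agent.Q92.AR Pool.Agent.Q20.RS
open Pool.Agent.Q246.BI (Smooth IsCharacter induced)
open Pool.Agent.Q20.TR (bt)

section
variable {K M : Type} [Field K] [NumberField K] [Field M] [NumberField M]
  [Algebra K M] [IsGalois K M] (D : Dtm K M)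

/-- **The virtual characters for which the equality of the `n`-th powers holds for all
automorphisms** -/
noncomputable def EM (n : ℕ) : AddSubgroup ((M ≃ₐ[K] M) → ℂ) where
  carrier := {f | ∀ σ : ℂ ≃+* ℂ, ∃ (h : f ∈ PP D) (h' : (fun g => σ (f g)) ∈ PP D),
    σ (val D ⟨f, h⟩) ^ n = val D ⟨_, h'⟩ ^ n}
  add_mem' := fun {a b} ha hb σ => by
    obtain ⟨h1, h1', e1⟩ := ha σ
    obtain ⟨h2, h2', e2⟩ := hb σ
    have h3 : (fun g => σ ((a + b) g)) = (fun g => σ (a g)) + fun g => σ (b g) :=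
      funext fun g => map_add σ _ _
    have h4 : (fun g => σ ((a + b) g)) ∈ PP D := h3 ▸ add_mem h1' h2'
    refine ⟨add_mem h1 h2, h4, ?_⟩
    have e3 : val D ⟨a + b, add_mem h1 h2⟩ = val D ⟨a, h1⟩ * val D ⟨b, h2⟩ :=
      val_add D ⟨a, h1⟩ ⟨b, h2⟩
    have e4 : val D ⟨fun g => σ ((a + b) g), h4⟩ = val D ⟨_, h1'⟩ * val D ⟨_, h2'⟩ := by
      rw [← val_add]
      congr 1
      exact Subtype.ext h3
    rw [e3, e4, map_mul, mul_pow, mul_pow, e1, e2]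
  zero_mem' := fun σ => by
    have h3 : (fun g => σ ((0 : (M ≃ₐ[K] M) → ℂ) g)) = 0 := funext fun g => map_zero σ
    have h4 : (fun g => σ ((0 : (M ≃ₐ[K] M) → ℂ) g)) ∈ PP D := by
      rw [h3]
      exact zero_mem _
    refine ⟨zero_mem _, h4, ?_⟩
    have e1 : val D ⟨0, zero_mem _⟩ = 1 := val_zero D
    have e2 : val D ⟨fun g => σ ((0 : (M ≃ₐ[K] M) → ℂ) g), h4⟩ = 1 := by
      rw [← val_zero D]
      congr 1
      exact Subtype.ext h3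
    rw [e1, e2, map_one]
  neg_mem' := fun {a} ha σ => by
    obtain ⟨h1, h1', e1⟩ := ha σ
    have h3 : (fun g => σ ((-a) g)) = -fun g => σ (a g) := funext fun g => map_neg σ _
    have h4 : (fun g => σ ((-a) g)) ∈ PP D := h3 ▸ neg_mem h1'
    refine ⟨neg_mem h1, h4, ?_⟩
    have e3 : val D ⟨-a, neg_mem h1⟩ = (val D ⟨a, h1⟩)⁻¹ := val_neg D ⟨a, h1⟩
    have e4 : val D ⟨fun g => σ ((-a) g), h4⟩ = (val D ⟨_, h1'⟩)⁻¹ := by
      rw [← val_neg]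
      congr 1
      exact Subtype.ext h3
    rw [e3, e4, map_inv₀, inv_pow, inv_pow, e1]

theorem EM_le {n n' : ℕ} (h : n ∣ n') : EM D n ≤ EM D n' := by
  obtain ⟨c, rfl⟩ := h
  intro f hf σ
  obtain ⟨h1, h2, e⟩ := hf σ
  exact ⟨h1, h2, by rw [pow_mul, pow_mul, e]⟩

end

section
variable {K : Type} [Field K] [NumberField K] {Λ : Type} (γ : Λ → GLv K)

theorem evL_mono {P Q : ∀ ℓ : Λ, AddSubgroup (((γ ℓ).N ≃ₐ[K] (γ ℓ).N) → ℂ)} (h : ∀ ℓ, P ℓ ≤ Q ℓ) :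
    EvL γ P ≤ EvL γ Q := by
  rintro f ⟨N₀, h1, h2⟩
  refine ⟨N₀, h1, fun ℓ hℓ => ?_⟩
  obtain ⟨f', h3, h4⟩ := h2 ℓ hℓ
  exact ⟨f', h ℓ h3, h4⟩

/-- **The equality of the powers for all automorphisms in terms of the induced characters** -/
theorem exact_ev {F : IntermediateField K (AlgebraicClosure K)} (hF : FiniteDimensional K F)
    {χ : F.fixingSubgroup → ℂ} (hχ : IsCharacter F χ) {m : ℕ}
    (h : ∃ N₀ : IntermediateField K (AlgebraicClosure K), FiniteDimensional K N₀ ∧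
      ∀ ℓ : Λ, N₀ ≤ (γ ℓ).N → ∀ σ : ℂ ≃+* ℂ,
        σ ((γ ℓ).A χ) ^ m = (γ ℓ).A (fun g => σ (χ g)) ^ m) :
      induced (bt K) F χ ∈ EvL γ fun ℓ => EM (γ ℓ).D m := by
  obtain ⟨N₁, hN₁, hF₁, h1⟩ := exists_glev hF hχ
  obtain ⟨N₂, hN₂, h2⟩ := h
  refine ⟨N₁ ⊔ N₂, IntermediateField.finiteDimensional_sup N₁ N₂, fun ℓ hℓ => ?_⟩
  obtain ⟨n, ρ, hρ⟩ := h1 (γ ℓ).N (le_sup_left.trans hℓ)
  obtain ⟨f, -, -, e1, -, -⟩ := (γ ℓ).exists_conj (hF₁.trans (le_sup_left.trans hℓ)) hρ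
    (RingEquiv.refl ℂ)
  refine ⟨f, fun σ => ?_, e1⟩
  obtain ⟨f', h3, h4, e1', e2, e3⟩ := (γ ℓ).exists_conj (hF₁.trans (le_sup_left.trans hℓ)) hρ σ
  have h7 : f' = f := by
    funext y
    obtain ⟨g, rfl⟩ := rN_surjective (N := (γ ℓ).N) y
    rw [← e1, ← e1']
  subst h7
  refine ⟨h3, h4, ?_⟩
  rw [← e2, ← e3]
  exact h2 ℓ (le_sup_right.trans hℓ) σ

/-- closures -/
theorem exists_em {A : Set ((bt K).fixingSubgroup → ℂ)}
    (h : ∀ f ∈ A, ∃ m : ℕ, 0 < m ∧ f ∈ EvL γ fun ℓ => EM (γ ℓ).D m)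
    {f : (bt K).fixingSubgroup → ℂ} (hf : f ∈ AddSubgroup.closure A) :
    ∃ m : ℕ, 0 < m ∧ f ∈ EvL γ fun ℓ => EM (γ ℓ).D m := by
  induction hf using AddSubgroup.closure_induction with
  | mem f hf => exact h f hf
  | zero => exact ⟨1, one_pos, zero_mem _⟩
  | add a b _ _ ha hb =>
    obtain ⟨m, hm, ha⟩ := ha
    obtain ⟨m', hm', hb⟩ := hb
    exact ⟨m * m', Nat.mul_pos hm hm', add_mem
      (evL_mono γ (fun ℓ => EM_le (γ ℓ).D (Dvd.intro _ rfl)) ha)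
      (evL_mono γ (fun ℓ => EM_le (γ ℓ).D (Dvd.intro_left _ rfl)) hb)⟩
  | neg a _ ha =>
    obtain ⟨m, hm, ha⟩ := ha
    exact ⟨m, hm, neg_mem ha⟩

/-- **The equality for the powers.** -/
theorem pow_of_mem {F : IntermediateField K (AlgebraicClosure K)} (hF : FiniteDimensional K F)
    {χ : F.fixingSubgroup → ℂ} (hχ : IsCharacter F χ) {m : ℕ} (hm : 0 < m)
    {A : Set ((bt K).fixingSubgroup → ℂ)}
    (hA : m • induced (bt K) F χ ∈ AddSubgroup.closure A)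
    (h : ∀ f ∈ A, ∃ m : ℕ, 0 < m ∧ f ∈ EvL γ fun ℓ => EM (γ ℓ).D m) :
    ∃ n : ℕ, 0 < n ∧ ∃ N₀ : IntermediateField K (AlgebraicClosure K), FiniteDimensional K N₀ ∧
      ∀ ℓ : Λ, N₀ ≤ (γ ℓ).N → ∀ σ : ℂ ≃+* ℂ,
        σ ((γ ℓ).A χ) ^ n = (γ ℓ).A (fun g => σ (χ g)) ^ n := by
  obtain ⟨N₁, hN₁, hF₁, h1⟩ := exists_glev hF hχ
  obtain ⟨n, hn, N₂, hN₂, h2⟩ := exists_em γ h hA
  refine ⟨m * n, Nat.mul_pos hm hn, N₁ ⊔ N₂, IntermediateField.finiteDimensional_sup N₁ N₂,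
    fun ℓ hℓ σ => ?_⟩
  obtain ⟨n', ρ, hρ⟩ := h1 (γ ℓ).N (le_sup_left.trans hℓ)
  obtain ⟨f, h3, h4, e1, e2, e3⟩ := (γ ℓ).exists_conj (hF₁.trans (le_sup_left.trans hℓ)) hρ σ
  obtain ⟨f', h5, e5⟩ := h2 ℓ (le_sup_right.trans hℓ)
  have h7 : f' = m • f := by
    funext y
    obtain ⟨g, rfl⟩ := rN_surjective (N := (γ ℓ).N) y
    rw [← e5, Pi.smul_apply, Pi.smul_apply, e1]
  subst h7
  obtain ⟨h8, h9, e6⟩ := h5 σ
  have e7 : val (γ ℓ).D ⟨m • f, h8⟩ = val (γ ℓ).D ⟨f, h3⟩ ^ m := val_nsmul (γ ℓ).D m ⟨f, h3⟩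
  have e8 : val (γ ℓ).D ⟨fun g => σ ((m • f) g), h9⟩ = val (γ ℓ).D ⟨_, h4⟩ ^ m := by
    rw [← val_nsmul]
    congr 1
    exact Subtype.ext (funext fun g => map_nsmul σ m _)
  rw [e2, e3, pow_mul, pow_mul, ← map_pow, ← e7, e6, e8]

end

end Pool.Agent.Q20.GD
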