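import Pool.Agent.Q20.GD.Exa
import Pool.Agent.Q20.RL.Rea

/-!
# Numbers of characters as additive inductive functions with values in germs
-/

set_option autoImplicit false
set_option linter.unusedSectionVars false

namespace Pool.Agent.Q20.GD

open NumberField IsDedekindDomain Pool.Agent.Q20.RS
open Pool.Agent.Q246.BI (Smooth IsCharacter induced)
open Pool.Agent.Q20.TR (bt)
open Pool.Agent.Q20.RS.RL (plus minus AddInd HasLocalConstants TorsionFreeDivisible InV)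
open scoped Classical

section tors

theorem tors_tfd {A : Type} [CommGroup A] (h : ∀ (n : ℕ) (a : A), 0 < n → ∃ b, b ^ n = a) :
    TorsionFreeDivisible (Additive (A ⧸ CommGroup.torsion A)) := by
  refine ⟨fun n b hn => ?_, fun m b hm hb => ?_⟩
  · obtain ⟨a, ha⟩ := QuotientGroup.mk_surjective (Additive.toMul b)
    obtain ⟨c, hc⟩ := h n a hn
    refine ⟨Additive.ofMul (QuotientGroup.mk c), ?_⟩
    rw [← ofMul_pow, ← QuotientGroup.mk_pow, hc, ha, ofMul_toMul]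
  · obtain ⟨a, ha⟩ := QuotientGroup.mk_surjective (Additive.toMul b)
    have h1 : b = Additive.ofMul (QuotientGroup.mk a) := by rw [ha, ofMul_toMul]
    rw [h1, ← ofMul_pow, ← QuotientGroup.mk_pow, ofMul_eq_zero, QuotientGroup.eq_one_iff] at hb
    rw [h1, ofMul_eq_zero, QuotientGroup.eq_one_iff]
    change IsOfFinOrder (a ^ m) at hb
    change IsOfFinOrder a
    exact hb.of_pow hm.ne'

theorem root_unit (n : ℕ) (z : ℂˣ) (hn : 0 < n) : ∃ y : ℂˣ, y ^ n = z := by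
  obtain ⟨y, hy⟩ := IsAlgClosed.exists_pow_nat_eq (z : ℂ) hn
  have hy0 : y ≠ 0 := by
    rintro rfl
    rw [zero_pow hn.ne'] at hy
    exact z.ne_zero hy.symm
  exact ⟨Units.mk0 y hy0, Units.ext (by rw [Units.val_pow_eq_pow_val, Units.val_mk0, hy])⟩

theorem germ_div {X S : Type} (l : Filter X) (n : ℕ) (a : Filter.Germ l (S → ℂˣ)) (hn : 0 < n) :
    ∃ b, b ^ n = a := by
  induction a using Filter.Germ.inductionOn with
  | h f =>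
    choose c hc using fun x s => root_unit n (f x s) hn
    refine ⟨(c : Filter.Germ l (S → ℂˣ)), ?_⟩
    have h1 : (c : Filter.Germ l (S → ℂˣ)) ^ n =
        ((c ^ n : X → S → ℂˣ) : Filter.Germ l (S → ℂˣ)) := rfl
    rw [h1]
    exact Filter.Germ.coe_eq.2 (Filter.Eventually.of_forall fun x => funext fun s => hc x s)

/-- the element of `ℂ^*` -/
noncomputable def untg (z : ℂ) : ℂˣ := if h : z = 0 then 1 else Units.mk0 z h

theorem untg_of_ne {z : ℂ} (hz : z ≠ 0) : untg z = Units.mk0 z hz := by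
  unfold untg
  rw [dif_neg hz]

theorem untg_mul {y z : ℂ} (hy : y ≠ 0) (hz : z ≠ 0) : untg (y * z) = untg y * untg z := by
  rw [untg_of_ne hy, untg_of_ne hz, untg_of_ne (mul_ne_zero hy hz)]
  exact Units.ext rfl

theorem untg_div_pow {y z : ℂ} (hy : y ≠ 0) (hz : z ≠ 0) (m : ℕ) :
    untg (y / z) ^ m = 1 ↔ y ^ m = z ^ m := by
  rw [untg_of_ne (div_ne_zero hy hz), Units.ext_iff, Units.val_pow_eq_pow_val, Units.val_mk0,
    div_pow, Units.val_one, div_eq_one_iff_eq (pow_ne_zero m hz)]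

end tors

section
variable {K : Type} [Field K] [NumberField K] {Λ : Type} (γ : Λ → GLv K)

/-- for all sufficiently large levels -/
def EvG (P : Λ → Prop) : Prop := ∃ N₀ : RS.Sub K, FinExt N₀ ∧ ∀ ℓ : Λ, N₀ ≤ (γ ℓ).N → P ℓ

/-- the filter of the sufficiently large levels -/
noncomputable def larg : Filter Λ :=
  ⨅ N₀ : {N₀ : RS.Sub K // FinExt N₀}, Filter.principal {ℓ | N₀.1 ≤ (γ ℓ).N}

theorem mem_larg (P : Λ → Prop) : {ℓ | P ℓ} ∈ larg γ ↔ EvG γ P := by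
  have hne : Nonempty {N₀ : RS.Sub K // FinExt N₀} := ⟨⟨base K, RL.fin_base⟩⟩
  have hdir : Directed (· ≥ ·) fun N₀ : {N₀ : RS.Sub K // FinExt N₀} =>
      Filter.principal {ℓ : Λ | N₀.1 ≤ (γ ℓ).N} := by
    intro a b
    have ha : FiniteDimensional K a.1 := a.2
    have hb : FiniteDimensional K b.1 := b.2
    have hab : FinExt (a.1 ⊔ b.1) := IntermediateField.finiteDimensional_sup a.1 b.1
    refine ⟨⟨a.1 ⊔ b.1, hab⟩, ?_, ?_⟩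
    · exact Filter.principal_mono.2 fun ℓ hℓ => le_sup_left.trans (Set.mem_ofPred_eq ▸ hℓ)
    · exact Filter.principal_mono.2 fun ℓ hℓ => le_sup_right.trans (Set.mem_ofPred_eq ▸ hℓ)
  unfold larg
  rw [Filter.mem_iInf_of_directed hdir]
  constructor
  · rintro ⟨N₀, h⟩
    exact ⟨N₀.1, N₀.2, fun ℓ hℓ => h hℓ⟩
  · rintro ⟨N₀, h0, h⟩
    exact ⟨⟨N₀, h0⟩, fun ℓ hℓ => h ℓ hℓ⟩

theorem ev_iff (P : Λ → Prop) : (∀ᶠ ℓ in larg γ, P ℓ) ↔ EvG γ P := mem_larg γ P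

variable {γ} in
theorem EvG.and {P Q : Λ → Prop} (h : EvG γ P) (h' : EvG γ Q) : EvG γ fun ℓ => P ℓ ∧ Q ℓ :=
  (ev_iff γ _).1 (((ev_iff γ _).2 h).and ((ev_iff γ _).2 h'))

variable {γ} in
theorem EvG.mono {P Q : Λ → Prop} (h : EvG γ P) (h' : ∀ ℓ, P ℓ → Q ℓ) : EvG γ Q := by
  obtain ⟨N₀, h0, h1⟩ := h
  exact ⟨N₀, h0, fun ℓ hℓ => h' ℓ (h1 ℓ hℓ)⟩

/-- the level functions of characters and their conjugates, for all automorphisms -/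
theorem lev_conj {F : RS.Sub K} (hF : FinExt F) {χ : Fn F} (hχ : Char χ) :
    ∃ N₀ : RS.Sub K, FinExt N₀ ∧ ∀ ℓ : Λ, N₀ ≤ (γ ℓ).N → ∀ σ : ℂ ≃+* ℂ,
      ∃ (f : ((γ ℓ).N ≃ₐ[K] (γ ℓ).N) → ℂ) (h1 : f ∈ PP (γ ℓ).D)
        (h2 : (fun g => σ (f g)) ∈ PP (γ ℓ).D),
        (∀ g, induced (bt K) F χ g = f (rN (γ ℓ).N g)) ∧
        (γ ℓ).A χ = val (γ ℓ).D ⟨f, h1⟩ ∧ (γ ℓ).A (conj σ χ) = val (γ ℓ).D ⟨_, h2⟩ := by
  obtain ⟨N₁, hN₁, hF₁, h1⟩ := exists_glev hF hχ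
  refine ⟨N₁, hN₁, fun ℓ hℓ σ => ?_⟩
  obtain ⟨n, ρ, hρ⟩ := h1 (γ ℓ).N hℓ
  exact (γ ℓ).exists_conj (hF₁.trans hℓ) hρ σ

/-- **The numbers of sums and induced characters** at all large levels -/
theorem A_plus {F : RS.Sub K} (hF : FinExt F) {χ χ' : Fn F} (h : Char χ) (h' : Char χ') :
    EvG γ fun ℓ => ∀ σ : ℂ ≃+* ℂ, (γ ℓ).A (conj σ (plus χ χ')) =
      (γ ℓ).A (conj σ χ) * (γ ℓ).A (conj σ χ') := by
  obtain ⟨N₁, hN₁, h1⟩ := lev_conj γ hF h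
  obtain ⟨N₂, hN₂, h2⟩ := lev_conj γ hF h'
  obtain ⟨N₃, hN₃, h3⟩ := lev_conj γ hF (RL.plus_char hF h h')
  have hN₁' : FiniteDimensional K N₁ := hN₁
  have hN₂' : FiniteDimensional K N₂ := hN₂
  have hN₃' : FiniteDimensional K N₃ := hN₃
  have h12 : FiniteDimensional K (N₁ ⊔ N₂ : RS.Sub K) := IntermediateField.finiteDimensional_sup N₁ N₂
  refine ⟨N₁ ⊔ N₂ ⊔ N₃, IntermediateField.finiteDimensional_sup _ _, fun ℓ hℓ σ => ?_⟩
  obtain ⟨f₁, -, a₁, b₁, -, c₁⟩ := h1 ℓ ((le_sup_left.trans le_sup_left).trans hℓ) σ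
  obtain ⟨f₂, -, a₂, b₂, -, c₂⟩ := h2 ℓ ((le_sup_right.trans le_sup_left).trans hℓ) σ
  obtain ⟨f₃, -, a₃, b₃, -, c₃⟩ := h3 ℓ (le_sup_right.trans hℓ) σ
  have e : f₃ = f₁ + f₂ := by
    funext y
    obtain ⟨g, rfl⟩ := rN_surjective (N := (γ ℓ).N) y
    rw [← b₃, RL.induced_plus hF h h', b₁, b₂]
    rfl
  rw [c₁, c₂, c₃, ← val_add]
  congr 1
  refine Subtype.ext (funext fun g => ?_)
  change σ (f₃ g) = σ (f₁ g) + σ (f₂ g)
  rw [e, Pi.add_apply, map_add]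

theorem A_ind {F F' : RS.Sub K} (hle : F ≤ F') (hF' : FinExt F') {χ : Fn F'} (h : Char χ) :
    EvG γ fun ℓ => ∀ σ : ℂ ≃+* ℂ, (γ ℓ).A (conj σ (ind F F' χ)) = (γ ℓ).A (conj σ χ) := by
  have hfd' : FiniteDimensional K F' := hF'
  have hF : FinExt F := FiniteDimensional.of_injective (IntermediateField.inclusion hle).toLinearMap
    (IntermediateField.inclusion hle).injective
  obtain ⟨N₁, hN₁, h1⟩ := lev_conj γ hF' h
  obtain ⟨N₂, hN₂, h2⟩ := lev_conj γ hF (RL.ind_char' hF hF' h)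
  have hN₁' : FiniteDimensional K N₁ := hN₁
  have hN₂' : FiniteDimensional K N₂ := hN₂
  refine ⟨N₁ ⊔ N₂, IntermediateField.finiteDimensional_sup _ _, fun ℓ hℓ σ => ?_⟩
  obtain ⟨f₁, -, a₁, b₁, -, c₁⟩ := h1 ℓ (le_sup_left.trans hℓ) σ
  obtain ⟨f₂, -, a₂, b₂, -, c₂⟩ := h2 ℓ (le_sup_right.trans hℓ) σ
  have h4 : induced (bt K) F (ind F F' χ) = induced (bt K) F' χ :=
    Pool.Agent.Q20.LG.induced_trans (bt K) F F' bot_le hle hF hF' (RL.char_conj_inv h)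
  have e : f₂ = f₁ := by
    funext y
    obtain ⟨g, rfl⟩ := rN_surjective (N := (γ ℓ).N) y
    rw [← b₂, h4, b₁]
  subst e
  rw [c₁, c₂]

theorem A_ne {F : RS.Sub K} (hF : FinExt F) {χ : Fn F} (h : Char χ) :
    EvG γ fun ℓ => (γ ℓ).A χ ≠ 0 ∧ ∀ σ : ℂ ≃+* ℂ, (γ ℓ).A (conj σ χ) ≠ 0 := by
  obtain ⟨N₁, hN₁, h1⟩ := lev_conj γ hF h
  refine ⟨N₁, hN₁, fun ℓ hℓ => ⟨?_, fun σ => ?_⟩⟩
  · obtain ⟨f₁, a₁, -, b₁, c₁, -⟩ := h1 ℓ hℓ (RingEquiv.refl ℂ)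
    rw [c₁]
    exact val_ne _ _
  · obtain ⟨f₁, -, a₁, b₁, -, c₁⟩ := h1 ℓ hℓ σ
    rw [c₁]
    exact val_ne _ _

theorem conj_refl {F : RS.Sub K} (χ : Fn F) : conj (RingEquiv.refl ℂ) χ = χ := rfl

/-- the germs -/
abbrev Gms : Type := Filter.Germ (larg γ) ((ℂ ≃+* ℂ) → ℂˣ)

/-- the quotient by the torsion subgroup -/
abbrev Dfs : Type := Additive (Gms γ ⧸ CommGroup.torsion (Gms γ))

theorem dfs_tfd : TorsionFreeDivisible (Dfs γ) := tors_tfd fun n a hn => germ_div _ n a hn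

/-- the class of a function -/
noncomputable def cls (u : Λ → (ℂ ≃+* ℂ) → ℂˣ) : Dfs γ :=
  Additive.ofMul (QuotientGroup.mk (u : Filter.Germ (larg γ) ((ℂ ≃+* ℂ) → ℂˣ)))

/-- the defect -/
noncomputable def dft (F : RS.Sub K) (χ : Fn F) : Dfs γ :=
  cls γ fun ℓ σ => untg (σ ((γ ℓ).A χ) / (γ ℓ).A (conj σ χ))

variable {γ} in
theorem cls_eq {u v : Λ → (ℂ ≃+* ℂ) → ℂˣ} (h : EvG γ fun ℓ => u ℓ = v ℓ) : cls γ u = cls γ v := by
  unfold cls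
  rw [Filter.Germ.coe_eq.2 ((ev_iff γ _).2 h)]

theorem cls_mul (u v : Λ → (ℂ ≃+* ℂ) → ℂˣ) : cls γ (u * v) = cls γ u + cls γ v := rfl

theorem cls_zero (u : Λ → (ℂ ≃+* ℂ) → ℂˣ) :
    cls γ u = 0 ↔ ∃ m : ℕ, 0 < m ∧ EvG γ fun ℓ => ∀ σ, u ℓ σ ^ m = 1 := by
  unfold cls
  rw [ofMul_eq_zero, QuotientGroup.eq_one_iff]
  change IsOfFinOrder _ ↔ _
  rw [isOfFinOrder_iff_pow_eq_one]
  refine exists_congr fun m => and_congr_right fun _ => ?_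
  have h1 : (u : Filter.Germ (larg γ) ((ℂ ≃+* ℂ) → ℂˣ)) ^ m =
      ((u ^ m : Λ → (ℂ ≃+* ℂ) → ℂˣ) : Filter.Germ (larg γ) ((ℂ ≃+* ℂ) → ℂˣ)) := rfl
  have h2 : (1 : Filter.Germ (larg γ) ((ℂ ≃+* ℂ) → ℂˣ)) =
      ((1 : Λ → (ℂ ≃+* ℂ) → ℂˣ) : Filter.Germ (larg γ) ((ℂ ≃+* ℂ) → ℂˣ)) := rfl
  rw [h1, h2, Filter.Germ.coe_eq]
  refine (ev_iff γ _).trans ?_
  constructor
  · intro h
    exact h.mono fun ℓ hℓ σ => congrFun hℓ σ
  · intro h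
    exact h.mono fun ℓ hℓ => funext fun σ => hℓ σ

theorem dft_addInd : AddInd (dft γ) := by
  refine ⟨fun F hF χ χ' h h' => ?_, fun F F' hle hF' χ h => ?_⟩
  · unfold dft
    rw [← cls_mul]
    refine cls_eq ((((A_ne γ hF h).and (A_ne γ hF h')).and (A_plus γ hF h h')).mono fun ℓ hℓ => ?_)
    obtain ⟨⟨⟨a1, a2⟩, b1, b2⟩, c⟩ := hℓ
    have c1 := c (RingEquiv.refl ℂ)
    rw [conj_refl, conj_refl, conj_refl] at c1
    funext σ
    change untg _ = untg _ * untg _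
    rw [c1, c σ, map_mul, mul_div_mul_comm, untg_mul
      (div_ne_zero ((map_ne_zero σ).2 a1) (a2 σ)) (div_ne_zero ((map_ne_zero σ).2 b1) (b2 σ))]
  · unfold dft
    refine cls_eq ((A_ind γ hle hF' h).mono fun ℓ hℓ => ?_)
    have c1 := hℓ (RingEquiv.refl ℂ)
    rw [conj_refl, conj_refl] at c1
    funext σ
    rw [c1, hℓ σ]

theorem dft_zero {F : RS.Sub K} (hF : FinExt F) {χ : Fn F} (h : Char χ) :
    dft γ F χ = 0 ↔ ∃ m : ℕ, 0 < m ∧ EvG γ fun ℓ => ∀ σ : ℂ ≃+* ℂ,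
      σ ((γ ℓ).A χ) ^ m = (γ ℓ).A (conj σ χ) ^ m := by
  unfold dft
  rw [cls_zero]
  refine exists_congr fun m => and_congr_right fun _ => ?_
  have h1 := A_ne γ hF h
  exact ⟨fun h2 => (h1.and h2).mono fun ℓ hℓ σ => (untg_div_pow
      ((map_ne_zero σ).2 hℓ.1.1) (hℓ.1.2 σ) m).1 (hℓ.2 σ),
    fun h2 => (h1.and h2).mono fun ℓ hℓ σ => (untg_div_pow
      ((map_ne_zero σ).2 hℓ.1.1) (hℓ.1.2 σ) m).2 (hℓ.2 σ)⟩

end

end Pool.Agent.Q20.GD
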