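import Pool.Agent.Q20.GD.Grm

/-!
# Numbers of characters as additive inductive functions with values in germs, without torsion
-/

set_option autoImplicit false
set_option linter.unusedSectionVars false

namespace Pool.Agent.Q20.GD

open NumberField IsDedekindDomain Pool.Agent.Q20.RS
open Pool.Agent.Q20.RS.RL (plus AddInd)
open scoped Classical

section
variable {K : Type} [Field K] [NumberField K] {Λ : Type} (γ : Λ → GLv K)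

/-- the germ of a function -/
noncomputable def gcl (u : Λ → (ℂ ≃+* ℂ) → ℂˣ) : Additive (Gms γ) :=
  Additive.ofMul (u : Filter.Germ (larg γ) ((ℂ ≃+* ℂ) → ℂˣ))

/-- the defect -/
noncomputable def dfx (F : RS.Sub K) (χ : Fn F) : Additive (Gms γ) :=
  gcl γ fun ℓ σ => untg (σ ((γ ℓ).A χ) / (γ ℓ).A (conj σ χ))

variable {γ} in
theorem gcl_eq {u v : Λ → (ℂ ≃+* ℂ) → ℂˣ} (h : EvG γ fun ℓ => u ℓ = v ℓ) : gcl γ u = gcl γ v := by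
  unfold gcl
  rw [Filter.Germ.coe_eq.2 ((ev_iff γ _).2 h)]

theorem gcl_mul (u v : Λ → (ℂ ≃+* ℂ) → ℂˣ) : gcl γ (u * v) = gcl γ u + gcl γ v := rfl

theorem gcl_zero (u : Λ → (ℂ ≃+* ℂ) → ℂˣ) :
    gcl γ u = 0 ↔ EvG γ fun ℓ => ∀ σ, u ℓ σ = 1 := by
  unfold gcl
  rw [ofMul_eq_zero]
  have h2 : (1 : Filter.Germ (larg γ) ((ℂ ≃+* ℂ) → ℂˣ)) =
      ((1 : Λ → (ℂ ≃+* ℂ) → ℂˣ) : Filter.Germ (larg γ) ((ℂ ≃+* ℂ) → ℂˣ)) := rfl
  rw [h2, Filter.Germ.coe_eq]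
  refine (ev_iff γ _).trans ?_
  constructor
  · intro h
    exact h.mono fun ℓ hℓ σ => congrFun hℓ σ
  · intro h
    exact h.mono fun ℓ hℓ => funext fun σ => hℓ σ

theorem dfx_addInd : AddInd (dfx γ) := by
  refine ⟨fun F hF χ χ' h h' => ?_, fun F F' hle hF' χ h => ?_⟩
  · unfold dfx
    rw [← gcl_mul]
    refine gcl_eq ((((A_ne γ hF h).and (A_ne γ hF h')).and (A_plus γ hF h h')).mono fun ℓ hℓ => ?_)
    obtain ⟨⟨⟨a1, a2⟩, b1, b2⟩, c⟩ := hℓ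
    have c1 := c (RingEquiv.refl ℂ)
    rw [conj_refl, conj_refl, conj_refl] at c1
    funext σ
    change untg _ = untg _ * untg _
    rw [c1, c σ, map_mul, mul_div_mul_comm, untg_mul
      (div_ne_zero ((map_ne_zero σ).2 a1) (a2 σ)) (div_ne_zero ((map_ne_zero σ).2 b1) (b2 σ))]
  · unfold dfx
    refine gcl_eq ((A_ind γ hle hF' h).mono fun ℓ hℓ => ?_)
    have c1 := hℓ (RingEquiv.refl ℂ)
    rw [conj_refl, conj_refl] at c1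
    funext σ
    rw [c1, hℓ σ]

theorem dfx_zero {F : RS.Sub K} (hF : FinExt F) {χ : Fn F} (h : Char χ) :
    dfx γ F χ = 0 ↔ EvG γ fun ℓ => ∀ σ : ℂ ≃+* ℂ, σ ((γ ℓ).A χ) = (γ ℓ).A (conj σ χ) := by
  unfold dfx
  rw [gcl_zero]
  have h1 := A_ne γ hF h
  have key : ∀ (ℓ : Λ) (σ : ℂ ≃+* ℂ), (γ ℓ).A χ ≠ 0 → (γ ℓ).A (conj σ χ) ≠ 0 →
      (untg (σ ((γ ℓ).A χ) / (γ ℓ).A (conj σ χ)) = 1 ↔
        σ ((γ ℓ).A χ) = (γ ℓ).A (conj σ χ)) := by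
    intro ℓ σ a b
    have h2 := untg_div_pow ((map_ne_zero σ).2 a) b 1
    rwa [pow_one, pow_one, pow_one] at h2
  exact ⟨fun h2 => (h1.and h2).mono fun ℓ hℓ σ => (key ℓ σ hℓ.1.1 (hℓ.1.2 σ)).1 (hℓ.2 σ),
    fun h2 => (h1.and h2).mono fun ℓ hℓ σ => (key ℓ σ hℓ.1.1 (hℓ.1.2 σ)).2 (hℓ.2 σ)⟩

end

end Pool.Agent.Q20.GD
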