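import Pool.Agent.Q20.RS.Cnj

/-!
# Regulators and leading coefficients of L-functions at an arbitrary point
-/

set_option autoImplicit false
set_option linter.unusedSectionVars false

namespace Pool.Agent.Q20.GD

open NumberField IsDedekindDomain Pool.Agent.Q92.AR Pool.Agent.Q20.RS
open Representation (IntertwiningMap)

section
variable {F M : Type} [Field F] [NumberField F] [Field M] [NumberField M] [Algebra F M]

/-- the leading coefficient of `L_S(s, χ)` at `s₀` -/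
noncomputable def leadAt (s₀ : ℂ) (T : Finset (HeightOneSpectrum (𝓞 M)))
    (χ : (M ≃ₐ[F] M) → ℂ) : ℂ :=
  meromorphicTrailingCoeffAt (mcont (artinLS T χ)) s₀

variable [IsGalois F M]

theorem leadAt_ne (s₀ : ℂ) {T : Finset (HeightOneSpectrum (𝓞 M))} {χ : (M ≃ₐ[F] M) → ℂ}
    (h : χ ∈ PL F T) : leadAt s₀ T χ ≠ 0 := by
  have h := cont_spec (g := artinLS T χ) h
  exact (h.1 s₀ (Set.mem_univ _)).meromorphicTrailingCoeffAt_ne_zero
    (h.order_ne_top (fun s _ => Complex.exp_ne_zero _) s₀)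

theorem leadAt_add (s₀ : ℂ) {T : Finset (HeightOneSpectrum (𝓞 M))} {χ χ' : (M ≃ₐ[F] M) → ℂ}
    (h : χ ∈ PL F T) (h' : χ' ∈ PL F T) :
    leadAt s₀ T (χ + χ') = leadAt s₀ T χ * leadAt s₀ T χ' := by
  have ha := cont_spec (g := artinLS T χ) h
  have hb := cont_spec (g := artinLS T χ') h'
  have hab := cont_spec (g := artinLS T (χ + χ')) ((PL F T).add_mem h h')
  change meromorphicTrailingCoeffAt (cont (artinLS T (χ + χ'))) s₀ =
    meromorphicTrailingCoeffAt (cont (artinLS T χ)) s₀ *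
      meromorphicTrailingCoeffAt (cont (artinLS T χ')) s₀
  rw [← (ha.1 s₀ (Set.mem_univ _)).meromorphicTrailingCoeffAt_mul (hb.1 s₀ (Set.mem_univ _))]
  refine meromorphicTrailingCoeffAt_congr_nhdsNE ?_
  exact hab.eventuallyEq (ha.mul hb) (fun s hs => artinLS_add T χ χ' hs) s₀

/-- the leading coefficients -/
noncomputable def PhiA (s₀ : ℂ) (F : Type) {M : Type} [Field F] [NumberField F] [Field M]
    [NumberField M] [Algebra F M] [IsGalois F M] (T : Finset (HeightOneSpectrum (𝓞 M))) :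
    PL F T →+ Additive ℂˣ :=
  AddMonoidHom.mk' (fun f => Additive.ofMul (Units.mk0 (leadAt s₀ T f.1) (leadAt_ne s₀ f.2)))
    (fun a b => by
      rw [← ofMul_mul]
      congr 1
      apply Units.ext
      exact leadAt_add s₀ a.2 b.2)

theorem phiA_val (s₀ : ℂ) (T : Finset (HeightOneSpectrum (𝓞 M))) (f : PL F T) :
    (((PhiA s₀ F T f).toMul : ℂˣ) : ℂ) = leadAt s₀ T f.1 := rfl

end

section
variable {K F M : Type} [Field K] [NumberField K] [Field F] [NumberField F] [Field M] [NumberField M]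
  [Algebra K F] [Algebra K M] [Algebra F M] [IsScalarTower K F M] [IsGalois K M] [IsGalois F M]

/-- inductivity of the leading coefficients -/
theorem leadAt_ind (s₀ : ℂ) {T : Finset (HeightOneSpectrum (𝓞 M))} (hT : Stable K T)
    (hR : ContainsRamified K T) {χ : (M ≃ₐ[F] M) → ℂ} (hχ : ∀ x y, χ (x⁻¹ * y * x) = χ y)
    (h : χ ∈ PL F T) : ∃ h' : indj (rsc K F M) χ ∈ PL K T,
      leadAt s₀ T χ = (((PhiA s₀ K T ⟨indj (rsc K F M) χ, h'⟩).toMul : ℂˣ) : ℂ) := by
  have h1 : indj (rsc K F M) χ ∈ PL K T := by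
    obtain ⟨f, hf⟩ := h
    exact ⟨f, hf.congr fun s hs => (artinLS_ind hT hR χ hχ hs).symm⟩
  refine ⟨h1, ?_⟩
  rw [phiA_val]
  unfold leadAt
  exact meromorphicTrailingCoeffAt_congr_nhdsNE ((cont_spec h).eventuallyEq (cont_spec h1)
    (fun s hs => (artinLS_ind hT hR χ hχ hs).symm) s₀)

end

/-- a representation of the Galois group of `M/K` with an automorphism, a set of primes and a
point -/
structure Dtm (K M : Type) [Field K] [NumberField K] [Field M] [NumberField M] [Algebra K M] :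
    Type 1 where
  V : Type
  [grp : AddCommGroup V]
  [mod : Module ℂ V]
  [fin : FiniteDimensional ℂ V]
  X : Representation ℂ (M ≃ₐ[K] M) V
  θ : IntertwiningMap X X
  bij : Function.Bijective θ
  T : Finset (HeightOneSpectrum (𝓞 M))
  stable : Stable K T
  ram : ContainsRamified K T
  s₀ : ℂ

attribute [instance] Dtm.grp Dtm.mod Dtm.fin

section
variable {K F M : Type} [Field K] [NumberField K] [Field F] [NumberField F] [Field M] [NumberField M]
  [Algebra K F] [Algebra K M] [Algebra F M] [IsScalarTower K F M]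

variable (F) in
/-- the quotient of the regulator and the leading coefficient -/
noncomputable def Dtm.A (D : Dtm K M) {U : Type} [AddCommGroup U] [Module ℂ U]
    (ρ : Representation ℂ (M ≃ₐ[F] M) U) : ℂ :=
  regul ρ (MonoidHom.comp D.X (rsc K F M)) (resI (rsc K F M) D.θ) / leadAt D.s₀ D.T ρ.character

variable [IsGalois K M] (D : Dtm K M)

/-- the virtual characters of `Gal(M/K)` for which the numbers are defined -/
noncomputable def PP : AddSubgroup ((M ≃ₐ[K] M) → ℂ) := PR D.θ ⊓ PL K D.T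

/-- **The numbers as a homomorphism** -/
noncomputable def Phi : PP D →+ Additive ℂˣ :=
  (PhiR D.θ).comp (AddSubgroup.inclusion inf_le_left) -
    (PhiA D.s₀ K D.T).comp (AddSubgroup.inclusion inf_le_right)

/-- the number of a virtual character as a complex number -/
noncomputable def val (f : PP D) : ℂ := (((Phi D f).toMul : ℂˣ) : ℂ)

/-- **Additivity and inductivity.** -/
theorem A_val [IsGalois F M] {U : Type} [AddCommGroup U] [Module ℂ U] [FiniteDimensional ℂ U]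
    (ρ : Representation ℂ (M ≃ₐ[F] M) U) : ∃ h : indj (rsc K F M) ρ.character ∈ PP D,
      D.A F ρ = val D ⟨_, h⟩ := by
  have hR' : ContainsRamified F D.T := D.ram.tower D.stable
  obtain ⟨h1, h2⟩ := leadAt_ind D.s₀ D.stable D.ram (χ := ρ.character) (char_conj' ρ)
    (char_mem D.stable.tower hR' ρ)
  have h3 := ind_mem (rsc K F M) D.θ ρ
  refine ⟨⟨h3, h1⟩, ?_⟩
  have h4 : regul ρ (MonoidHom.comp D.X (rsc K F M)) (resI (rsc K F M) D.θ) =
      (((PhiR D.θ ⟨indj (rsc K F M) ρ.character, h3⟩).toMul : ℂˣ) : ℂ) :=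
    regul_eq (rsc K F M) D.bij ρ
  unfold Dtm.A
  rw [h4, h2]
  change _ = (((PhiR D.θ ⟨indj (rsc K F M) ρ.character, h3⟩ -
    PhiA D.s₀ K D.T ⟨indj (rsc K F M) ρ.character, h1⟩).toMul : ℂˣ) : ℂ)
  rw [toMul_sub, Units.val_div_eq_div_val]

theorem val_ne (f : PP D) : val D f ≠ 0 := Units.ne_zero _

theorem val_add (f f' : PP D) : val D (f + f') = val D f * val D f' := by
  unfold val
  rw [map_add, toMul_add, Units.val_mul]

theorem val_zero : val D 0 = 1 := by
  unfold val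
  rw [map_zero]
  rfl

theorem val_neg (f : PP D) : val D (-f) = (val D f)⁻¹ := by
  unfold val
  rw [map_neg, toMul_neg, Units.val_inv_eq_inv_val]

theorem val_nsmul (m : ℕ) (f : PP D) : val D (m • f) = val D f ^ m := by
  unfold val
  rw [map_nsmul, toMul_nsmul, Units.val_pow_eq_pow_val]

theorem val_zsmul (m : ℤ) (f : PP D) : val D (m • f) = val D f ^ m := by
  unfold val
  rw [map_zsmul, toMul_zsmul, Units.val_zpow_eq_zpow_val]

/-- **The virtual characters for which the equality holds up to roots of unity** -/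
noncomputable def SR (σ : ℂ ≃+* ℂ) : AddSubgroup ((M ≃ₐ[K] M) → ℂ) where
  carrier := {f | ∃ (h : f ∈ PP D) (h' : (fun g => σ (f g)) ∈ PP D) (m : ℕ), 0 < m ∧
    σ (val D ⟨f, h⟩) ^ m = val D ⟨_, h'⟩ ^ m}
  add_mem' := fun {a b} ha hb => by
    obtain ⟨h1, h1', m, hm, e1⟩ := ha
    obtain ⟨h2, h2', n, hn, e2⟩ := hb
    have h3 : (fun g => σ ((a + b) g)) = (fun g => σ (a g)) + fun g => σ (b g) :=
      funext fun g => map_add σ _ _
    have h4 : (fun g => σ ((a + b) g)) ∈ PP D := h3 ▸ add_mem h1' h2'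
    refine ⟨add_mem h1 h2, h4, m * n, Nat.mul_pos hm hn, ?_⟩
    have e3 : val D ⟨a + b, add_mem h1 h2⟩ = val D ⟨a, h1⟩ * val D ⟨b, h2⟩ :=
      val_add D ⟨a, h1⟩ ⟨b, h2⟩
    have e4 : val D ⟨fun g => σ ((a + b) g), h4⟩ = val D ⟨_, h1'⟩ * val D ⟨_, h2'⟩ := by
      rw [← val_add]
      congr 1
      exact Subtype.ext h3
    rw [e3, e4, map_mul, mul_pow, mul_pow, pow_mul, e1, mul_comm m n, pow_mul (σ (val D ⟨b, h2⟩)),
      e2, ← pow_mul, ← pow_mul, mul_comm m n]
  zero_mem' := by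
    have h3 : (fun g => σ ((0 : (M ≃ₐ[K] M) → ℂ) g)) = 0 := funext fun g => map_zero σ
    have h4 : (fun g => σ ((0 : (M ≃ₐ[K] M) → ℂ) g)) ∈ PP D := by
      rw [h3]
      exact zero_mem _
    refine ⟨zero_mem _, h4, 1, one_pos, ?_⟩
    have e1 : val D ⟨0, zero_mem _⟩ = 1 := val_zero D
    have e2 : val D ⟨fun g => σ ((0 : (M ≃ₐ[K] M) → ℂ) g), h4⟩ = 1 := by
      rw [← val_zero D]
      congr 1
      exact Subtype.ext h3
    rw [e1, e2, map_one]
  neg_mem' := fun {a} ha => by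
    obtain ⟨h1, h1', m, hm, e1⟩ := ha
    have h3 : (fun g => σ ((-a) g)) = -fun g => σ (a g) := funext fun g => map_neg σ _
    have h4 : (fun g => σ ((-a) g)) ∈ PP D := h3 ▸ neg_mem h1'
    refine ⟨neg_mem h1, h4, m, hm, ?_⟩
    have e3 : val D ⟨-a, neg_mem h1⟩ = (val D ⟨a, h1⟩)⁻¹ := val_neg D ⟨a, h1⟩
    have e4 : val D ⟨fun g => σ ((-a) g), h4⟩ = (val D ⟨_, h1'⟩)⁻¹ := by
      rw [← val_neg]
      congr 1
      exact Subtype.ext h3
    rw [e3, e4, map_inv₀, inv_pow, inv_pow, e1]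

variable {D}

/-- saturation -/
theorem SR_sat {σ : ℂ ≃+* ℂ} {f : (M ≃ₐ[K] M) → ℂ} (h : f ∈ PP D)
    (h' : (fun g => σ (f g)) ∈ PP D) {m : ℕ} (hm : 0 < m) (hf : m • f ∈ SR D σ) : f ∈ SR D σ := by
  obtain ⟨h1, h1', n, hn, e⟩ := hf
  refine ⟨h, h', m * n, Nat.mul_pos hm hn, ?_⟩
  have e3 : val D ⟨m • f, h1⟩ = val D ⟨f, h⟩ ^ m := val_nsmul D m ⟨f, h⟩
  have e4 : val D ⟨fun g => σ ((m • f) g), h1'⟩ = val D ⟨_, h'⟩ ^ m := by
    rw [← val_nsmul]
    congr 1
    exact Subtype.ext (funext fun g => map_nsmul σ m _)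
  rw [e3, e4, map_pow, ← pow_mul, ← pow_mul] at e
  exact e

variable (D)

/-- **The virtual characters whose numbers are algebraic** -/
noncomputable def AG : AddSubgroup ((M ≃ₐ[K] M) → ℂ) where
  carrier := {f | ∃ h : f ∈ PP D, IsAlgebraic ℚ (val D ⟨f, h⟩)}
  add_mem' := fun {a b} ha hb => by
    obtain ⟨h1, e1⟩ := ha
    obtain ⟨h2, e2⟩ := hb
    refine ⟨add_mem h1 h2, ?_⟩
    have e3 : val D ⟨a + b, add_mem h1 h2⟩ = val D ⟨a, h1⟩ * val D ⟨b, h2⟩ :=
      val_add D ⟨a, h1⟩ ⟨b, h2⟩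
    rw [e3]
    exact e1.mul e2
  zero_mem' := by
    refine ⟨zero_mem _, ?_⟩
    have e1 : val D ⟨0, zero_mem _⟩ = 1 := val_zero D
    rw [e1]
    exact isAlgebraic_one
  neg_mem' := fun {a} ha => by
    obtain ⟨h1, e1⟩ := ha
    refine ⟨neg_mem h1, ?_⟩
    have e3 : val D ⟨-a, neg_mem h1⟩ = (val D ⟨a, h1⟩)⁻¹ := val_neg D ⟨a, h1⟩
    rw [e3]
    exact e1.inv

variable {D}

theorem AG_sat {f : (M ≃ₐ[K] M) → ℂ} (h : f ∈ PP D) {m : ℕ} (hm : 0 < m)
    (hf : m • f ∈ AG D) : f ∈ AG D := by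
  obtain ⟨h1, e⟩ := hf
  refine ⟨h, ?_⟩
  have e3 : val D ⟨m • f, h1⟩ = val D ⟨f, h⟩ ^ m := val_nsmul D m ⟨f, h⟩
  rw [e3] at e
  exact e.of_pow hm

variable (D)

/-- the virtual characters for which the numbers of the conjugates are defined -/
noncomputable def PC (σ : ℂ ≃+* ℂ) : AddSubgroup ((M ≃ₐ[K] M) → ℂ) where
  carrier := {f | f ∈ PP D ∧ (fun g => σ (f g)) ∈ PP D}
  add_mem' := fun {a b} ha hb => by
    have h3 : (fun g => σ ((a + b) g)) = (fun g => σ (a g)) + fun g => σ (b g) :=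
      funext fun g => map_add σ _ _
    exact ⟨add_mem ha.1 hb.1, h3 ▸ add_mem ha.2 hb.2⟩
  zero_mem' := by
    have h3 : (fun g => σ ((0 : (M ≃ₐ[K] M) → ℂ) g)) = 0 := funext fun g => map_zero σ
    refine ⟨zero_mem _, ?_⟩
    rw [h3]
    exact zero_mem _
  neg_mem' := fun {a} ha => by
    have h3 : (fun g => σ ((-a) g)) = -fun g => σ (a g) := funext fun g => map_neg σ _
    exact ⟨neg_mem ha.1, h3 ▸ neg_mem ha.2⟩

end

end Pool.Agent.Q20.GD
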